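import Pool.Agent.H62.EX.Stm
import Pool.Agent.H62.KumS

/-!
# The condition on the local cubes for a set of primes, all but one of which are cubes modulo each other
-/

set_option autoImplicit false
set_option linter.unusedSectionVars false

namespace Pool.Agent.H68.EX

open NumberField IsDedekindDomain WithZero
open Pool.Agent.H62
open Pool.Agent.Y696 (exp_rep und und_lies exists_above)
open Pool.Agent.Y688 (dn val_rel)
open Pool.Agent.Y682 Pool.Agent.Q285.LK

section field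

/-- in a field: if a product of cubes and of a power of `a` with an exponent prime to three is a cube,
then `a` is a cube -/
lemma cube_of_pow {k : Type} [Field k] {a u : k} (ha : a ≠ 0) {E : ℕ} (hE : ¬ 3 ∣ E)
    (h : a ^ E = u ^ 3) : ∃ c : k, c ^ 3 = a := by
  have h3 : E % 3 = 1 ∨ E % 3 = 2 := by omega
  have hdm := Nat.div_add_mod E 3
  have hu : u ≠ 0 := by
    rintro rfl
    rw [zero_pow three_ne_zero] at h
    exact pow_ne_zero _ ha h
  rcases h3 with h3 | h3
  · refine ⟨u / a ^ (E / 3), ?_⟩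
    rw [div_pow, ← h, div_eq_iff (pow_ne_zero _ (pow_ne_zero _ ha)), ← pow_mul, ← pow_succ']
    congr 1
    omega
  · refine ⟨a ^ (E / 3 + 1) / u, ?_⟩
    rw [div_pow, ← h, div_eq_iff (pow_ne_zero _ ha), ← pow_mul, ← pow_succ']
    congr 1
    omega

end field

variable {F K : Type} [Field F] [NumberField F] [IsCyclotomicExtension {3} ℚ F] [Field K]
  [NumberField K] [Algebra F K] [IsGalois F K] {ζ : F} {n : ℕ} {S : Finset (𝓞 F)}

/-- an integer of `F` which is a cube in the completion at a totally ramified prime is a cube modulo this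
prime -/
lemma cube_mod (T : Ms F K ζ n S) {t : 𝓞 F} (ht : t ∈ S) {P : HeightOneSpectrum (𝓞 K)}
    (hP : algebraMap (𝓞 F) (𝓞 K) t ∈ P.asIdeal) {B : 𝓞 F}
    (hB : P.valuation K (algebraMap F K (B : F)) = 1) {c : P.adicCompletion K}
    (hc : c ^ 3 = algebraMap K (P.adicCompletion K) (algebraMap F K (B : F))) :
    ∃ y : 𝓞 F, t ∣ B - y ^ 3 := by
  have hvc : vv P c = 1 := by
    have h1 : vv P c ^ 3 = 1 := by rw [← map_pow, hc, vv_coe, hB]
    exact (pow_eq_one_iff_of_nonneg (by simp) (by norm_num)).1 h1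
  obtain ⟨z, hz⟩ := exists_approx P c 1 one_ne_zero
  set φ := algebraMap K (P.adicCompletion K) with hφ
  have hvz : P.valuation K z ≤ 1 := by
    rw [← vv_coe]
    have e : φ z = (φ z - c) + c := by ring
    rw [← hφ, e]
    exact (Valuation.map_add _ _ _).trans (max_le hz.le hvc.le)
  obtain ⟨y, hy⟩ := T.res ht hP hvz
  refine ⟨y, ?_⟩
  have hvy : P.valuation K (algebraMap F K (y : F)) ≤ 1 :=
    P.valuation_le_one (algebraMap (𝓞 F) (𝓞 K) y)
  have h1 : vv P (c - φ (algebraMap F K (y : F))) < 1 := by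
    have e : c - φ (algebraMap F K (y : F)) = -(φ z - c) + φ (z - algebraMap F K (y : F)) := by
      rw [map_sub]
      ring
    rw [e]
    refine lt_of_le_of_lt (Valuation.map_add _ _ _) (max_lt ?_ ?_)
    · rw [Valuation.map_neg]
      exact hz
    · rw [vv_coe]
      exact hy
  have h2 := lt_of_le_of_lt (vv_pow_sub P (y := c) (z := φ (algebraMap F K (y : F))) hvc.le (by
    rw [vv_coe]
    exact hvy) 3) h1
  rw [hc, ← map_pow, ← map_sub, vv_coe] at h2
  have h3 : algebraMap (𝓞 F) (𝓞 K) (B - y ^ 3) ∈ P.asIdeal := by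
    refine (mem_iff_val P _).2 ?_
    have e : ((algebraMap (𝓞 F) (𝓞 K) (B - y ^ 3) : 𝓞 K) : K) =
        algebraMap F K (B : F) - algebraMap F K (y : F) ^ 3 := by
      have e1 : ((algebraMap (𝓞 F) (𝓞 K) (B - y ^ 3) : 𝓞 K) : K) =
          algebraMap F K ((B - y ^ 3 : 𝓞 F) : F) := rfl
      have e2 : ((B - y ^ 3 : 𝓞 F) : F) = (B : F) - (y : F) ^ 3 := by
        show algebraMap (𝓞 F) F _ = _
        rw [map_sub, map_pow]
      rw [e1, e2, map_sub, map_pow]
    rw [e]
    exact h2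
  have h4 : B - y ^ 3 ∈ (dn F P).asIdeal := h3
  rwa [dn_span (T.prime t ht).1 hP, Ideal.mem_span_singleton] at h4

open scoped Classical in
/-- **The condition on the local cubes.** -/
theorem loc [IsCyclic Gal(K/F)] (T : Ms F K ζ n S) (hunr : UnrS K S) (p0 : 𝓞 F) (hp0 : p0 ∈ S)
    (h1 : ∀ t ∈ S, t ≠ p0 → ¬ ∃ y : 𝓞 F, t ∣ y ^ 3 - p0)
    (h2 : ∀ t ∈ S, ∀ s ∈ S, t ≠ p0 → s ≠ p0 → s ≠ t → ∃ y : 𝓞 F, t ∣ y ^ 3 - s) :
    Pool.Agent.H62.EX.LocalCubes F K S := by
  intro x hx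
  have hpid := IsCyclotomicExtension.Rat.three_pid F
  obtain ⟨b, e, σ, hb, he, -, hb0, -⟩ := T.exists_kum hunr
  have hQ : ∀ q ∈ S, algebraMap F K (q : F) ≠ 0 := by
    intro q hq
    rw [Ne, map_eq_zero]
    exact fun h => (T.prime q hq).1.ne_zero (by exact_mod_cast h)
  have key : ∀ t ∈ S, 3 ∣ e t * x p0 + 2 * e p0 * x t := by
    intro t ht
    by_cases htp : t = p0
    · subst htp
      exact ⟨e t * x t, by ring⟩
    by_contra hcon
    apply h1 t ht htp
    obtain ⟨P, hPlo⟩ := exists_above (K := K) (hsp (T.prime t ht).1)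
    have hP : algebraMap (𝓞 F) (𝓞 K) t ∈ P.asIdeal := by
      have h1 : t ∈ P.asIdeal.under (𝓞 F) := by
        rw [← hPlo.over]
        exact Ideal.mem_span_singleton_self t
      exact h1
    obtain ⟨d, hd⟩ := hx P ⟨t, ht, hP⟩
    set B : 𝓞 F := ∏ q ∈ S.erase t, q ^ (e t * x q + 2 * e q * x t) with hB
    set Qt := algebraMap F K (t : F) with hQt
    have hQt0 : Qt ≠ 0 := hQ t ht
    have hid : algebraMap F K (B : F) * (Qt ^ (e t * x t)) ^ 3 =
        (algebraMap F K ((∏ p ∈ S, p ^ x p : 𝓞 F) : F)) ^ e t * (b ^ (2 * x t)) ^ 3 := by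
      have e1 : (b ^ (2 * x t)) ^ 3 = (∏ p ∈ S, (algebraMap F K (p : F)) ^ e p) ^ (2 * x t) := by
        rw [← pow_mul, mul_comm _ 3, pow_mul, hb, coe_prod]
      rw [e1, coe_prod, coe_prod, ← Finset.mul_prod_erase S _ ht, ← Finset.mul_prod_erase S _ ht,
        mul_pow, mul_pow, ← Finset.prod_pow, ← Finset.prod_pow]
      have e2 : ∏ p ∈ S.erase t, (algebraMap F K (p : F)) ^ (e t * x p + 2 * e p * x t) =
          (∏ p ∈ S.erase t, ((algebraMap F K (p : F)) ^ x p) ^ e t) *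
          ∏ p ∈ S.erase t, ((algebraMap F K (p : F)) ^ e p) ^ (2 * x t) := by
        rw [← Finset.prod_mul_distrib]
        refine Finset.prod_congr rfl fun q _ => ?_
        rw [← pow_mul, ← pow_mul, ← pow_add]
        congr 1
        ring
      rw [e2, ← hQt]
      have e3 : (Qt ^ (e t * x t)) ^ 3 = (Qt ^ x t) ^ e t * (Qt ^ e t) ^ (2 * x t) := by
        rw [← pow_mul, ← pow_mul, ← pow_mul, ← pow_add]
        congr 1
        ring
      rw [e3]
      ring
    have hVB : P.valuation K (algebraMap F K (B : F)) = 1 := by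
      rw [hB, coe_prod, map_prod]
      refine Finset.prod_eq_one fun q hq => ?_
      have hq' := Finset.mem_erase.1 hq
      rw [map_pow, T.val_unit ht hP hq'.2 hq'.1, one_pow]
    set φ := algebraMap K (P.adicCompletion K) with hφ
    have hφQ : φ (Qt ^ (e t * x t)) ≠ 0 := (map_ne_zero φ).2 (pow_ne_zero _ hQt0)
    obtain ⟨y, hy⟩ := cube_mod T ht hP (B := B) hVB
      (c := d ^ e t * φ (b ^ (2 * x t)) / φ (Qt ^ (e t * x t))) (by
        rw [div_pow, mul_pow, ← pow_mul, mul_comm (e t) 3, pow_mul, hd, div_eq_iff (pow_ne_zero _ hφQ),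
          ← map_pow φ, ← map_pow φ, ← map_pow φ, ← map_mul φ, ← map_mul φ, hid])
    -- the residue field
    have hpr : (Ideal.span {t} : Ideal (𝓞 F)).IsPrime :=
      (Ideal.span_singleton_prime (T.prime t ht).1.ne_zero).2 (T.prime t ht).1
    have hmax : (Ideal.span {t} : Ideal (𝓞 F)).IsMaximal := hpr.isMaximal (by
      rw [Ne, Ideal.span_singleton_eq_bot]
      exact (T.prime t ht).1.ne_zero)
    let _ : Field (𝓞 F ⧸ (Ideal.span {t} : Ideal (𝓞 F))) := Ideal.Quotient.field _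
    set m := Ideal.Quotient.mk (Ideal.span {t} : Ideal (𝓞 F)) with hm
    have hm0 : ∀ a : 𝓞 F, m a = 0 ↔ t ∣ a := by
      intro a
      rw [hm, Ideal.Quotient.eq_zero_iff_mem, Ideal.mem_span_singleton]
    have hmq : ∀ q ∈ S, q ≠ t → m q ≠ 0 := by
      intro q hq hqt h
      exact hqt (cop_F T.zeta (T.prime t ht).1 (T.prime q hq).1 (T.prime t ht).2
        (T.prime q hq).2 ((hm0 q).mp h)).symm
    have hcub : ∀ q ∈ S, q ≠ t → q ≠ p0 → ∃ y : 𝓞 F ⧸ (Ideal.span {t} : Ideal (𝓞 F)), y ^ 3 = m q := by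
      intro q hq hqt hqp
      obtain ⟨y, hy⟩ := h2 t ht q hq htp hqp hqt
      refine ⟨m y, ?_⟩
      have h3 := (hm0 _).mpr hy
      rw [map_sub, map_pow, sub_eq_zero] at h3
      exact h3
    have hy' : m B = m y ^ 3 := by
      have h3 := (hm0 _).mpr hy
      rw [map_sub, map_pow, sub_eq_zero] at h3
      exact h3
    have hp0' : p0 ∈ S.erase t := Finset.mem_erase.mpr ⟨fun h => htp h.symm, hp0⟩
    obtain ⟨W, hW0, hW⟩ : ∃ W : 𝓞 F ⧸ (Ideal.span {t} : Ideal (𝓞 F)), W ≠ 0 ∧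
        m B = m p0 ^ (e t * x p0 + 2 * e p0 * x t) * W ^ 3 := by
      have h3 : ∀ q : 𝓞 F, ∃ y : 𝓞 F ⧸ (Ideal.span {t} : Ideal (𝓞 F)),
          q ∈ (S.erase t).erase p0 → y ^ 3 = m q := by
        intro q
        by_cases hq : q ∈ (S.erase t).erase p0
        · obtain ⟨h4, h5⟩ := Finset.mem_erase.mp hq
          obtain ⟨h6, h7⟩ := Finset.mem_erase.mp h5
          obtain ⟨y, hy⟩ := hcub q h7 h6 h4
          exact ⟨y, fun _ => hy⟩
        · exact ⟨0, fun h => absurd h hq⟩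
      choose y3 hy3 using h3
      refine ⟨∏ q ∈ (S.erase t).erase p0, y3 q ^ (e t * x q + 2 * e q * x t), ?_, ?_⟩
      · refine Finset.prod_ne_zero_iff.mpr fun q hq => pow_ne_zero _ ?_
        intro h0
        have h4 := hy3 q hq
        rw [h0, zero_pow three_ne_zero] at h4
        obtain ⟨-, h5⟩ := Finset.mem_erase.mp hq
        obtain ⟨h6, h7⟩ := Finset.mem_erase.mp h5
        exact hmq q h7 h6 h4.symm
      · rw [hB, map_prod, ← Finset.mul_prod_erase _ _ hp0', map_pow, ← Finset.prod_pow]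
        congr 1
        refine Finset.prod_congr rfl fun q hq => ?_
        rw [map_pow, ← hy3 q hq, ← pow_mul, ← pow_mul, mul_comm 3]
    have h3 : m p0 ^ (e t * x p0 + 2 * e p0 * x t) = (m y / W) ^ 3 := by
      rw [div_pow, eq_div_iff (pow_ne_zero _ hW0), ← hW, hy']
    obtain ⟨c, hc⟩ := cube_of_pow (hmq p0 hp0 fun h => htp h.symm) hcon h3
    obtain ⟨c', rfl⟩ := Ideal.Quotient.mk_surjective c
    refine ⟨c', (hm0 _).mp ?_⟩
    rw [map_sub, map_pow, sub_eq_zero]
    exact hc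
  -- the exponents
  have hcx : ∀ t ∈ S, ∃ k : ℤ, (x t : ℤ) = e p0 * x p0 * e t + 3 * k := by
    intro t ht
    obtain ⟨r, hr⟩ := key t ht
    have h3 : e p0 % 3 = 1 ∨ e p0 % 3 = 2 := by
      have := he p0 hp0
      omega
    obtain ⟨s, hs⟩ : ∃ s : ℤ, (e p0 : ℤ) ^ 2 = 1 + 3 * s := by
      rcases h3 with h3 | h3
      · obtain ⟨q, hq⟩ : ∃ q : ℕ, e p0 = 3 * q + 1 := ⟨e p0 / 3, by omega⟩
        refine ⟨3 * q ^ 2 + 2 * q, ?_⟩
        rw [hq]
        push_cast
        ring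
      · obtain ⟨q, hq⟩ : ∃ q : ℕ, e p0 = 3 * q + 2 := ⟨e p0 / 3, by omega⟩
        refine ⟨3 * q ^ 2 + 4 * q + 1, ?_⟩
        rw [hq]
        push_cast
        ring
    have hr' : (e t : ℤ) * x p0 + 2 * e p0 * x t = 3 * r := by exact_mod_cast hr
    refine ⟨x t * (1 + 2 * s) - e p0 * r, ?_⟩
    linear_combination (-(e p0 : ℤ)) * hr' + 2 * (x t : ℤ) * hs
  choose! k hk using hcx
  refine ⟨b ^ (e p0 * x p0) * ∏ t ∈ S, algebraMap F K (t : F) ^ (k t), ?_⟩
  have hbe : b ^ 3 = ∏ t ∈ S, algebraMap F K (t : F) ^ (e t) := by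
    rw [hb, coe_prod]
  have h3 : (b ^ (e p0 * x p0)) ^ 3 = ∏ t ∈ S, algebraMap F K (t : F) ^ (e t * (e p0 * x p0)) := by
    rw [← pow_mul, mul_comm _ 3, pow_mul, hbe, ← Finset.prod_pow]
    refine Finset.prod_congr rfl fun t _ => ?_
    rw [← pow_mul]
  rw [mul_pow, h3, ← Finset.prod_pow, ← Finset.prod_mul_distrib, coe_prod]
  refine Finset.prod_congr rfl fun t ht => ?_
  have h4 := hQ t ht
  rw [← zpow_natCast, ← zpow_natCast, ← zpow_natCast, ← zpow_mul, ← zpow_add₀ h4, hk t ht]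
  congr 1
  push_cast
  ring

end Pool.Agent.H68.EX
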